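import Pool.Agent.H465.PT.O

/-!
# The Riemann hypothesis up to `o(log A)` zeros for the `L`-functions of elliptic curves over all
number fields: equivalences

Let `E_i` be elliptic curves over number fields `K_i` (for instance one elliptic curve `E/ℚ` and an
arbitrary sequence of number fields `K_i`), such that `L(E_i/K_i, s)` is entire and satisfies the
functional equation `Λ(s) = w Λ(2 - s)` of the Hasse-Weil conjecture, with conductor
`A_i = Norm(N_{E_i/K_i}) |Disc(K_i)|²`.  Assume that `log A_i / [K_i : ℚ] → ∞` (for a fixed `E/ℚ`: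
the root discriminant of `K_i` tends to infinity); the degrees are arbitrary, they may tend to
infinity.  We show that the following statements, about the zeros and values at bounded height, are
equivalent:

(1) *almost all zeros are near the line*: for `T` and `ε > 0`, at most `ε log A_i` nontrivial zeros
  with `|Im ρ| ≤ T` have a distance `≥ ε` from the line `Re s = 1`;
(2) *all zeros are equidistributed on the line*: the number of zeros is asymptotic to the Lebesgue
  measure of the line `Re s = 1` times `(log A_i) / (2π)`, weakly;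
(3) *Lindelöf hypothesis in the half plane*: `|L(E_i/K_i, s)| ≤ A_i ^ ε` for `Re s ≥ 1`, `|s| ≤ T`;
(4) *Lindelöf hypothesis on the line*: `|L(E_i/K_i, 1 + it)| ≤ A_i ^ ε` for `|t| ≤ T`;
(5) *smallness on average*: `∫ |log |L(E_i/K_i, s)|| ≤ ε log A_i` over `Re s ≥ 1`, `|s| ≤ T`.

So the Riemann hypothesis (Q1) implies all of them, the Riemann hypothesis with the exception of
`o(log A)` zeros and up to `o(1)` in the distance from the line is equivalent to the Lindelöf
hypothesis in the aspect of the conductor, and the equidistribution of the ordinates follows from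
the horizontal statement (1).  There is no loss in the degree, all constants are uniform in `E` and
`K`; nothing but the continuation, a weak bound for the growth, the Euler product and the functional
equation are used.  (`A` is determined by the L-function because of the functional equation.)

Proof: let `V(s) = log |Λ(s)| / log A` (suitably normalised).  At the edge `Re s ≥ 3/2 + ϑ` this is
a linear function up to `o(1)`, by the Euler product and Hasse's bound, because the number of
places of `K` above a prime is at most `[K : ℚ] = o(log A)`; the functional equation gives the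
values at the other edge, and the theorem of Phragmén and Lindelöf gives upper bounds.  (1) ⇒ (5):
after division by the finitely many zeros, smallness of the logarithm of a zero-free function in
`L¹` propagates from disc to disc; near the line a layer remains, which is estimated by the upper
bound.  (5) ⇒ (2): the zeros are the Laplacian of `log |Λ|`.  (2) ⇒ (1) by testing.
(4) ⇒ (5): the theorem of Phragmén and Lindelöf and the mean value inequality.
-/

set_option autoImplicit false

open NumberField IsDedekindDomain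

namespace Pool.Agent.Results.MP_fb225e_nt.LindelofEquidistribution

section field
variable {K : Type} [Field K] [NumberField K]

/-- the number of affine points of `y² = x³ + a x + b` over the residue field of `v` -/
noncomputable def points (a b : 𝓞 K) (v : HeightOneSpectrum (𝓞 K)) : ℕ :=
  Nat.card {P : (𝓞 K ⧸ v.asIdeal) × (𝓞 K ⧸ v.asIdeal) //
    P.2 ^ 2 = P.1 ^ 3 + Ideal.Quotient.mk v.asIdeal a * P.1 + Ideal.Quotient.mk v.asIdeal b}

/-- the Euler factor `(1 - c q^(-s) + e q^(-2 s))⁻¹` -/
noncomputable def eulerFactor (c e : ℤ) (q : ℕ) (s : ℂ) : ℂ :=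
  (1 - (c : ℂ) * (q : ℂ) ^ (-s) + (e : ℂ) * (q : ℂ) ^ (-(2 * s)))⁻¹

/-- the possible Euler factors of an elliptic curve at a place with `q` residue classes:
good reduction (`e = q`, `c² ≤ 4 q`) or bad reduction (`e = 0`, `c = 0, 1, -1`) -/
def Possible (c e : ℤ) (q : ℕ) : Prop := (e = q ∧ c ^ 2 ≤ 4 * (q : ℤ)) ∨ (e = 0 ∧ c ^ 2 ≤ 1)

/-- `1 - c_v T + e_v T²` are the local polynomials of `y² = x³ + a x + b`: given by the number of
points, `c_v = Nv - #(affine points)` and `e_v = Nv`, if `v` does not divide `2 (4 a³ + 27 b²)`, and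
possible for an elliptic curve at the finitely many other places -/
structure IsLocal (a b : 𝓞 K) (c e : HeightOneSpectrum (𝓞 K) → ℤ) : Prop where
  good : ∀ v : HeightOneSpectrum (𝓞 K), 2 * (4 * a ^ 3 + 27 * b ^ 2) ∉ v.asIdeal →
    c v = (Ideal.absNorm v.asIdeal : ℤ) - points a b v ∧ e v = Ideal.absNorm v.asIdeal
  bad : ∀ v : HeightOneSpectrum (𝓞 K), 2 * (4 * a ^ 3 + 27 * b ^ 2) ∈ v.asIdeal →
    Possible (c v) (e v) (Ideal.absNorm v.asIdeal)

end field

/-- the completed function `A^(s/2) ((2π)^(-s) Γ(s))^n L(s)` -/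
noncomputable def completed (n : ℕ) (A : ℝ) (L : ℂ → ℂ) (s : ℂ) : ℂ :=
  (A : ℂ) ^ (s / 2) * ((2 * Real.pi : ℂ) ^ (-s) * Complex.Gamma s) ^ n * L s

/-- `L` is the L-function of the elliptic curve `y² = x³ + a x + b` over `K`: it is given by the
Euler product for `Re s > 3/2`, it is entire, and it has the functional equation with the conductor
`A` (stated in the critical strip `0 < Re s < 2` of the completed function).  The bound `growth` in
the strip is very weak, in all known cases `L` is of finite order. -/
structure HasseWeil (K : Type) [Field K] [NumberField K] (a b : 𝓞 K) (A : ℝ) (L : ℂ → ℂ) :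
    Prop where
  nonsingular : 4 * a ^ 3 + 27 * b ^ 2 ≠ 0
  euler : ∃ c e : HeightOneSpectrum (𝓞 K) → ℤ, IsLocal a b c e ∧ ∀ s : ℂ, 3 / 2 < s.re →
    HasProd (fun v : HeightOneSpectrum (𝓞 K) =>
      eulerFactor (c v) (e v) (Ideal.absNorm v.asIdeal) s) (L s)
  entire : Differentiable ℂ L
  growth : ∃ B : ℝ, ∀ s : ℂ, 0 < s.re → s.re < 2 → ‖L s‖ ≤ Real.exp (B * Real.exp |s.im|)
  pos : 0 < A
  fe : ∃ w : ℂ, ‖w‖ = 1 ∧ ∀ s : ℂ, 0 < s.re → s.re < 2 →
    completed (Module.finrank ℚ K) A L s = w * completed (Module.finrank ℚ K) A L (2 - s)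

open Classical in
/-- The sum of `g(ρ)` over the nontrivial zeros `ρ` of `L`, i.e. the zeros in the strip
`0 < Re ρ < 2`, with multiplicity. -/
noncomputable def zeroSum (L : ℂ → ℂ) (g : ℂ → ℝ) : ℝ :=
  ∑ᶠ ρ : ℂ, if 0 < ρ.re ∧ ρ.re < 2 then (analyticOrderNatAt L ρ : ℝ) * g ρ else 0

/-- The number of the nontrivial zeros in a set, with multiplicity. -/
noncomputable def count (L : ℂ → ℂ) (S : Set ℂ) : ℝ := zeroSum L (S.indicator fun _ => 1)

theorem conv {K : Type} [Field K] [NumberField K] {a b : 𝓞 K} {A : ℝ} {L : ℂ → ℂ}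
    (h : HasseWeil K a b A L) : Pool.Agent.H465.PT.HasseWeil K a b A L := by
  obtain ⟨c, e, hl, he⟩ := h.euler
  exact ⟨h.nonsingular, ⟨c, e, ⟨hl.good, hl.bad⟩, he⟩, h.entire, h.growth, h.pos, h.fe⟩

/-- **Main theorem.** Let `E_i : y² = x³ + a_i x + b_i` be elliptic curves over number fields `K_i`
(`i` runs over a set with a filter, e.g. a sequence) which satisfy the Hasse-Weil conjecture, with
conductors `A_i` such that `log A_i / [K_i : ℚ] → ∞`.  Then the statements (1) - (5) are
equivalent. -/
theorem result {ι : Type} (l : Filter ι) (K : ι → Type) [∀ i, Field (K i)]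
    [∀ i, NumberField (K i)] (a b : ∀ i, 𝓞 (K i)) (A : ι → ℝ) (L : ι → ℂ → ℂ)
    (h : ∀ i, HasseWeil (K i) (a i) (b i) (A i) (L i))
    (hA : Filter.Tendsto (fun i => Real.log (A i) / Module.finrank ℚ (K i)) l Filter.atTop) :
    List.TFAE [
      -- (1) almost all zeros are near the line
      ∀ T ε : ℝ, 0 < ε → ∀ᶠ i in l,
        count (L i) {ρ : ℂ | |ρ.im| ≤ T ∧ ε ≤ |ρ.re - 1|} ≤ ε * Real.log (A i),
      -- (2) the zeros are equidistributed on the line
      ∀ g : ℂ → ℝ, Continuous g → HasCompactSupport g →
        Filter.Tendsto (fun i => zeroSum (L i) g / Real.log (A i)) l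
          (nhds (1 / (2 * Real.pi) * ∫ t : ℝ, g (1 + t * Complex.I))),
      -- (3) Lindelöf hypothesis in the half plane
      ∀ T ε : ℝ, 0 < ε → ∀ᶠ i in l, ∀ s : ℂ, 1 ≤ s.re → ‖s‖ ≤ T → ‖L i s‖ ≤ A i ^ ε,
      -- (4) Lindelöf hypothesis on the line
      ∀ T ε : ℝ, 0 < ε → ∀ᶠ i in l, ∀ t : ℝ, |t| ≤ T → ‖L i (1 + t * Complex.I)‖ ≤ A i ^ ε,
      -- (5) the logarithm is small on average
      ∀ T ε : ℝ, 0 < ε → ∀ᶠ i in l,
        ∫ s in {s : ℂ | 1 ≤ s.re ∧ ‖s‖ ≤ T}, |Real.log ‖L i s‖| ≤ ε * Real.log (A i)] := by
  have key := Pool.Agent.H465.PT.hw_tfae (fun i => conv (h i)) hA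
  have hexp : ∀ i, ∀ ε : ℝ, Real.exp (ε * Real.log (A i)) = A i ^ ε := by
    intro i ε
    rw [Real.rpow_def_of_pos (h i).pos, mul_comm]
  have hp : ∀ t : ℝ, Pool.Agent.H465.NF.p1 t = 1 + t * Complex.I := by
    intro t
    apply Complex.ext <;> simp [Pool.Agent.H465.NF.p1]
  simp only [hexp, hp] at key
  exact key

end Pool.Agent.Results.MP_fb225e_nt.LindelofEquidistribution
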