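import Pool.Agent.H453.BS.RelN
import Pool.Agent.H453.CM.Fld

/-!
# The Riemann hypothesis for elliptic curves over number fields: reduction to fields over which the curve
# looks CM

An elliptic curve `E` over a number field `F` has complex multiplication (over an extension of `F`) by an
order `ℤ + ℤ φ` exactly if its geometric endomorphism ring contains a `φ` which is no multiplication by an
integer; then `σ φ σ⁻¹ ∈ ℤ + ℤ φ` for all `σ` in the Galois group `G_F`, and `φ` does not act as an integer
on `E[ℓ]` if `φ` generates the endomorphism ring.  In this file `E` **looks CM modulo `m`** (over `F`) if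
there is an endomorphism `φ` of the group `E[m]` with these two properties: `φ` does not act as an integer
on `E[ℓ]`, for every prime `ℓ ∣ m`, and for every `σ ∈ G_F` there are integers `a`, `b` with
`σ φ σ⁻¹ = a + b φ` on `E[m]`.  If `E` has no complex multiplication, then it looks CM over a given field
only modulo finitely many primes, and only modulo finitely many powers of a given prime (Serre); modulo a
prime `ℓ` it means that the image of `G_F` in `Aut(E[ℓ])` is contained in a Borel subgroup or in the
normaliser of a Cartan subgroup.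

The question is about the zeros `ρ` with `Re ρ ≠ 1` of `L(E/K, s)` for elliptic curves `E` over `ℚ` and number
fields `K`.  Let `U` be a part of the half plane `Re s > 1`, for example `Re s > σ` with `σ ≥ 1`.  We show for
every elliptic curve `E` over `ℚ` with `j(E) ≠ 0, 1728`: if `L(E/K, s)` has an analytic continuation
without zeros to `U` for all those number fields `K` over which `E` looks CM modulo a given squarefree
number `N` and has rank at least `R`, then `L(E/K, s)` has an analytic continuation without zeros to `U`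
for all number fields `K`.

The reason is that `L(E/K, s)` is a product of integral powers of the functions `L(E/F_i, s)` for such
extensions `F_i` of `K`, up to a factor that is meromorphic on `ℂ` and has neither zeros nor poles for
`Re s > 1`.

The proof.  Brauer induction, with the fields of `Pool.Agent.N683.H2` (where it is shown that the rank can
be made large), gives fields `F_i` over which the Galois group of `K(E[N²])` is `p_i`-hyperelementary,
`C ⋊ P` with a cyclic group `C` and a `p_i`-group `P`.  Let `ℓ ^ k ∣ N`.  In a basis of `E[ℓ ^ (2k)]`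
a generator `c` of `C` is `s + ℓ ^ a x` with an integer `s` and an `x` that is not scalar modulo `ℓ`.
If `a < k`, then `σ c σ⁻¹ = c ^ j` and the theorem of Cayley and Hamilton show that `φ = x` has the
required property on `E[ℓ ^ k]`, since `2 k - a ≥ k`.  If `a ≥ k`, then the image of the Galois group in
`Aut(E[ℓ ^ k])` modulo the scalars is a `p_i`-group; if it is not trivial, then it has a nontrivial central
element, and a preimage `φ` of it satisfies `σ φ σ⁻¹ = b φ`.  It is not scalar modulo `ℓ` if `ℓ ≠ p_i` or
`k = 1`.  The local factors at the finitely many places where the products differ have no zeros for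
`Re s > 1`, since `|a_v| ≤ N v`, and since the curve has a point modulo `v` besides the one at infinity or
a singular point.
-/

set_option autoImplicit false

namespace Pool.Agent.Results.MP_fb225e_nt.LooksCM

open NumberField IsDedekindDomain
open Pool.Agent.R433.MD (Ext)
open Pool.Agent.N19.BR.Def
open scoped Classical

/-- The group of the geometric points of the elliptic curve `E` over the field `F`. -/
abbrev GeometricPoints {F : Type} [Field F] (E : WeierstrassCurve F) : Type :=
  (E.baseChange (AlgebraicClosure F)).toAffine.Point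

/-- The action of `σ ∈ Gal(F̄/F)` on the geometric points. -/
noncomputable def galoisAction {F : Type} [Field F] (E : WeierstrassCurve F)
    (σ : AlgebraicClosure F ≃ₐ[F] AlgebraicClosure F) : GeometricPoints E →+ GeometricPoints E :=
  WeierstrassCurve.Affine.Point.map (W' := E) (σ : AlgebraicClosure F →ₐ[F] AlgebraicClosure F)

/-- `G` acts by automorphisms `ρ g` on the abelian group `V`.  The action looks CM modulo `m` if there is
an endomorphism `φ` of the group `V[m]` of the elements killed by `m` (the image of a homomorphism from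
`V[m]` to `V` is contained in `V[m]`) such that
* for every prime `ℓ ∣ m` there is a `P ∈ V[ℓ]` such that `φ P` is not a multiple of `P`;
* for every `g ∈ G` there are integers `a` and `b` such that `g φ = (a + b φ) g` on `V[m]`. -/
def ActionLooksCM {G V : Type} [AddCommGroup V] (ρ : G → V →+ V) (m : ℕ) : Prop :=
  ∃ φ : AddSubgroup.torsionBy V (m : ℤ) →+ V,
    (∀ l : ℕ, l.Prime → l ∣ m → ∃ P : AddSubgroup.torsionBy V (m : ℤ),
      l • P = 0 ∧ ∀ a : ℤ, φ P ≠ a • (P : V)) ∧
    ∀ g : G, ∃ a b : ℤ, ∀ P Q : AddSubgroup.torsionBy V (m : ℤ),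
      (Q : V) = ρ g P → ρ g (φ P) = a • (Q : V) + b • φ Q

/-- The elliptic curve `E` over `F` looks CM modulo `m`: there is an endomorphism `φ` of `E[m]`, which is
not a multiplication by an integer on `E[ℓ]` for any prime `ℓ ∣ m`, such that for every
`σ ∈ Gal(F̄/F)` there are integers `a` and `b` with `σ φ σ⁻¹ = a + b φ` on `E[m]`. -/
def LooksCM {F : Type} [Field F] (E : WeierstrassCurve F) (m : ℕ) : Prop :=
  ActionLooksCM (galoisAction E) m

/-- The rank of the elliptic curve `E` over `K` over the extension `F = Z.F` of `K` is at least `R`. -/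
def RankAtLeast {K : Type} [Field K] [NumberField K] (R : ℕ) (E : WeierstrassCurve K) (Z : Ext K) :
    Prop :=
  (R : Cardinal) ≤ Module.rank ℤ (E.map (algebraMap K Z.F)).toAffine.Point

/-- The `L`-series of an elliptic curve over `F`, the product of the Euler factors of the minimal models
`V`. -/
noncomputable def LFunction {F : Type} [Field F] [NumberField F]
    (V : HeightOneSpectrum (𝓞 F) → WeierstrassCurve (𝓞 F)) (s : ℂ) : ℂ := ∏' v, factor V s v

/-- `L(E/K, s)` has an analytic continuation without zeros to `U`. -/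
def ZeroFree (U : Set ℂ) (K : Type) [Field K] [NumberField K] (E : WeierstrassCurve K) : Prop :=
  ∃ Λ : ℂ → ℂ, Continues U 1 E Λ ∧ ∀ s ∈ U, AnalyticAt ℂ Λ s ∧ Λ s ≠ 0

/-- The function `ρ` is meromorphic on `ℂ`, and it has neither zeros nor poles for `Re s > 1` and at
`s = 1`. -/
def Harmless (ρ : ℂ → ℂ) : Prop :=
  MeromorphicOn ρ Set.univ ∧ ∀ s : ℂ, (1 < s.re ∨ s = 1) → AnalyticAt ℂ ρ s ∧ ρ s ≠ 0

/-- The properties of the extensions `F = Z.F` of `K`: for a prime number `p`
* `E` looks CM over `F` modulo all divisors `m` of `N` that are not divisible by `p ^ 2`;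
* the Galois group of `L F / F` is `p`-hyperelementary, the divisors of `n` prime to `p` divide the local
  degrees of `F / K` above `S`, and `F` has at most two real places if `p ≠ 2`. -/
def Special {K : Type} [Field K] [NumberField K] (E : WeierstrassCurve K) (L : Type) [Field L]
    [Algebra K L] (S : Set (HeightOneSpectrum (𝓞 K))) (n N : ℕ) (Z : Ext K) : Prop :=
  ∃ p : ℕ, p.Prime ∧
    (∀ m : ℕ, m ∣ N → ¬ p ^ 2 ∣ m → LooksCM (E.map (algebraMap K Z.F)) m) ∧
    HyperelementaryOver p L Z ∧
    (∀ k : ℕ, k ∣ n → k.Coprime p → LocalDegreesDivisible S k Z) ∧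
    (p ≠ 2 → AtMostTwoRealPlaces Z)

/-- The first part of the theorem, for one curve. -/
def Reduction (K : Type) [Field K] [NumberField K] (E : WeierstrassCurve K) (L : Type) [Field L]
    [Algebra K L] (S : Set (HeightOneSpectrum (𝓞 K))) (n N R : ℕ) : Prop :=
  ∃ (k : ℕ) (F : Fin k → Ext K) (e : Fin k → ℤ),
    (∀ i, RankAtLeast R E (F i) ∧ Special E L S n N (F i)) ∧
    (∀ (V : HeightOneSpectrum (𝓞 K) → WeierstrassCurve (𝓞 K)) (_ : MinimalModels E V)
      (W : ∀ i, HeightOneSpectrum (𝓞 (F i).F) → WeierstrassCurve (𝓞 (F i).F))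
      (_ : ∀ i, MinimalModels (E.map (algebraMap K (F i).F)) (W i)),
      ∃ ρ : ℂ → ℂ, Harmless ρ ∧ ∀ s : ℂ, 3 / 2 < s.re →
        LFunction V s = ρ s * ∏ i, LFunction (W i) s ^ e i) ∧
    ∀ U : Set ℂ, (∀ s ∈ U, 1 < s.re) → (∀ i, ZeroFree U (F i).F (E.map (algebraMap K (F i).F))) →
      ZeroFree U K E

/-- The first part of the theorem. -/
def ReductionForAll : Prop :=
  ∀ (K : Type) [Field K] [NumberField K] (E : WeierstrassCurve K) [E.IsElliptic],
    E.j ≠ 0 → E.j ≠ 1728 → ∀ (L : Type) [Field L] [NumberField L] [Algebra K L] [IsGalois K L]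
    (S : Set (HeightOneSpectrum (𝓞 K))), S.Finite → ∀ n : ℕ, n ≠ 0 → ∀ N : ℕ, N ≠ 0 →
    ∀ R : ℕ, Reduction K E L S n N R

/-- **The Riemann hypothesis and fields over which the curve looks CM.**

(1) Let `E` be an elliptic curve over a number field `K` with `j(E) ≠ 0, 1728`, `L/K` a finite Galois
extension, `S` a finite set of primes of `K`, `n, N ≥ 1` and `R` natural numbers.  There are finitely many
finite extensions `F_i` of `K` and integers `e_i` such that
* `E(F_i)` has rank at least `R`;
* for a prime number `p_i`, `E` looks CM over `F_i` modulo all divisors of `N` not divisible by `p_i ^ 2`,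
  `Gal(L F_i / F_i)` is `p_i`-hyperelementary, the part of `n` prime to `p_i` divides the local degrees of
  `F_i / K` above `S`, and `F_i` has at most two real places if `p_i ≠ 2`;
* `L(E/K, s) = ρ(s) ∏ L(E/F_i, s) ^ e_i` for `Re s > 3/2`, where `ρ` is meromorphic on `ℂ`, without zeros
  and poles for `Re s > 1` and at `s = 1`;
* for all sets `U` in the half plane `Re s > 1`: if all `L(E/F_i, s)` have an analytic continuation without
  zeros to `U`, then `L(E/K, s)` has an analytic continuation without zeros to `U`.

(2) Let `E` be an elliptic curve over `ℚ` with `j(E) ≠ 0, 1728`, `N ≥ 1` squarefree, `R` a natural number and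
`U` a set in the half plane `Re s > 1`, for example `Re s > σ` with `σ ≥ 1`.  For all number fields `K`
the function `L(E/K, s)` has an analytic continuation without zeros to `U` if and only if this is so for
all number fields `K` such that `E(K)` has rank at least `R` and `E` looks CM modulo `N` over `K`.

(3) The same with any `N ≥ 1`, if one asks that for some prime number `p`, which depends on `K`, the curve
looks CM over `K` modulo all divisors of `N` not divisible by `p ^ 2`. -/
theorem result :
    ReductionForAll ∧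
    (∀ (E : WeierstrassCurve ℚ) [E.IsElliptic], E.j ≠ 0 → E.j ≠ 1728 →
      ∀ (N R : ℕ) (U : Set ℂ), Squarefree N → (∀ s ∈ U, 1 < s.re) →
      ((∀ (K : Type) [Field K] [NumberField K], ZeroFree U K (E.map (algebraMap ℚ K))) ↔
        ∀ (K : Type) [Field K] [NumberField K],
          (R : Cardinal) ≤ Module.rank ℤ (E.map (algebraMap ℚ K)).toAffine.Point →
          LooksCM (E.map (algebraMap ℚ K)) N → ZeroFree U K (E.map (algebraMap ℚ K)))) ∧
    ∀ (E : WeierstrassCurve ℚ) [E.IsElliptic], E.j ≠ 0 → E.j ≠ 1728 →
      ∀ (N R : ℕ) (U : Set ℂ), N ≠ 0 → (∀ s ∈ U, 1 < s.re) →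
      ((∀ (K : Type) [Field K] [NumberField K], ZeroFree U K (E.map (algebraMap ℚ K))) ↔
        ∀ (K : Type) [Field K] [NumberField K],
          (R : Cardinal) ≤ Module.rank ℤ (E.map (algebraMap ℚ K)).toAffine.Point →
          (∃ p : ℕ, p.Prime ∧ ∀ m : ℕ, m ∣ N → ¬ p ^ 2 ∣ m → LooksCM (E.map (algebraMap ℚ K)) m) →
          ZeroFree U K (E.map (algebraMap ℚ K))) := by
  have main : ReductionForAll := by
    intro K _ _ E hE h0 h1728 L _ _ _ _ S hS n hn N hN R
    obtain ⟨L', hfin, hgal, ⟨f⟩, hco⟩ := Pool.Agent.H453.CM.exists_fld K E L (N ^ 2)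
      (pow_ne_zero 2 hN)
    have _ : NumberField L' := NumberField.of_module_finite K L'
    obtain ⟨k, F, e, hrel, hF⟩ := Pool.Agent.N683.H2.list_one K E hE h0 h1728 L' S hS n hn R
    refine ⟨k, F, e, fun i => ⟨(hF i).1, ?_⟩, fun V hV W hW =>
      Pool.Agent.H453.BS.L_of_rel_nice hrel hE V hV W hW,
      fun U hU h => Pool.Agent.H453.BS.zeroFree_of_rel hrel hE hU h⟩
    obtain ⟨p, hp, hyp, hloc, hreal⟩ := (hF i).2
    refine ⟨p, hp, fun m hm hpm => ?_, ?_, hloc, hreal⟩
    · exact Pool.Agent.H453.CM.lc_of_hyper K E L'.val hco (F i) hp hyp m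
        (fun h => hN (Nat.eq_zero_of_zero_dvd (h ▸ hm))) hm hpm
    · obtain ⟨M, hM, hM2, ⟨g⟩⟩ := hyp
      exact ⟨M, hM, hM2, ⟨g.comp f⟩⟩
  have three : ∀ (E : WeierstrassCurve ℚ) [E.IsElliptic], E.j ≠ 0 → E.j ≠ 1728 →
      ∀ (N R : ℕ) (U : Set ℂ), N ≠ 0 → (∀ s ∈ U, 1 < s.re) →
      ((∀ (K : Type) [Field K] [NumberField K], ZeroFree U K (E.map (algebraMap ℚ K))) ↔
        ∀ (K : Type) [Field K] [NumberField K],
          (R : Cardinal) ≤ Module.rank ℤ (E.map (algebraMap ℚ K)).toAffine.Point →
          (∃ p : ℕ, p.Prime ∧ ∀ m : ℕ, m ∣ N → ¬ p ^ 2 ∣ m → LooksCM (E.map (algebraMap ℚ K)) m) →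
          ZeroFree U K (E.map (algebraMap ℚ K))) := by
    intro E hE h0 h1 N R U hN hU
    refine ⟨fun h K _ _ _ _ => h K, fun h K _ _ => ?_⟩
    have hinj : Function.Injective (algebraMap ℚ K) := (algebraMap ℚ K).injective
    have h0' : (E.map (algebraMap ℚ K)).j ≠ 0 := by
      rw [WeierstrassCurve.map_j]
      exact fun h => h0 (hinj (by rw [h, map_zero]))
    have h1' : (E.map (algebraMap ℚ K)).j ≠ 1728 := by
      rw [WeierstrassCurve.map_j]
      exact fun h => h1 (hinj (by rw [h, map_ofNat]))
    obtain ⟨k, F, e, hF, -, h2⟩ := main K (E.map (algebraMap ℚ K)) h0' h1' K ∅ Set.finite_empty 1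
      one_ne_zero N hN R
    refine h2 U hU fun i => ?_
    have e1 : (E.map (algebraMap ℚ K)).map (algebraMap K (F i).F) =
        E.map (algebraMap ℚ (F i).F) := by
      rw [WeierstrassCurve.map_map]
      congr 1
      exact Subsingleton.elim _ _
    obtain ⟨p, hp, hcm, -⟩ := (hF i).2
    have h3 := (hF i).1
    unfold RankAtLeast at h3
    rw [e1] at h3 hcm ⊢
    exact h (F i).F h3 ⟨p, hp, hcm⟩
  refine ⟨main, fun E hE h0 h1 N R U hN hU => ?_, three⟩
  refine ⟨fun h K _ _ _ _ => h K, fun h => ?_⟩
  refine (three E h0 h1 N R U hN.ne_zero hU).2 fun K _ _ hr hcm => h K hr ?_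
  obtain ⟨p, hp, hcm⟩ := hcm
  exact hcm N dvd_rfl fun hd => hp.one_lt.ne' (Nat.isUnit_iff.1 (hN p (by rwa [← sq])))

end Pool.Agent.Results.MP_fb225e_nt.LooksCM
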