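import Pool.Agent.H465.PT.U

/-!
# Subconvexity and zeros of bounded height of `L(E/K, s)`, uniformly in the number field

Let `E` be an elliptic curve over a number field `K` whose `L`-function `L(E/K, s)` satisfies the
Hasse-Weil conjecture (continuation and functional equation), and let
`A = Norm(N_{E/K}) |Disc(K)|²` be its conductor.  We study the nontrivial zeros of bounded height
when `log A / [K : ℚ]` is large (for a fixed `E/ℚ`: when the root discriminant of `K` is large); the
degree `[K : ℚ]` is arbitrary and may tend to infinity, nothing is assumed on the place of the zeros.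

Recall the convexity bound `|L(E/K, 1 + it)| ≤ A ^ (1/4 + ε)`.  For every family with
`log A / [K : ℚ] → ∞` the following are equivalent:

(1) *subconvexity*: for every `T` there is `c > 0` with `|L(E/K, 1 + it)| ≤ A ^ (1/4 - c)` for
  `|t| ≤ T`;
(2) *subconvexity in a short interval*: there are `T, r, c > 0` such that each `L(E/K, 1 + it)` has
  an interval of length `2 r` at height `≤ T` (depending on `E/K`), with the bound
  `A ^ (1/4 - c)` there;
(3) *a positive proportion of the zeros is not at the edges of the critical strip*: there are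
  `T, δ, c > 0` such that `L(E/K, s)` has at least `c log A` zeros with `|Im ρ| ≤ T`,
  `1/2 + δ ≤ Re ρ ≤ 3/2 - δ`;
(4) *the same at all heights*: for every `T` there are `H, δ, c > 0` such that for `|t| ≤ T` there
  are at least `c log A` zeros with `|Im ρ - t| ≤ H`, `1/2 + δ ≤ Re ρ ≤ 3/2 - δ`.

So the convexity bound can be improved if (and only if) the Riemann hypothesis is not violated in
the worst possible way, by `100 %` of the zeros of bounded height at the edges `Re s = 1/2, 3/2` of
the critical strip.  In particular a positive proportion of zeros on the critical line implies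
subconvexity, at all bounded heights.

Proofs.  Let `V = log |Λ|`.
(2) ⇒ (1): barriers and the mean value inequality.  (3) ⇒ (1): many zeros in a small disc give, by
the maximum principle for `Λ / ∏ (s - ρ)`, a gain on this disc, which spreads.
(1) ⇒ (4): otherwise `V` is, after division by the few zeros in a long rectangle, harmonic there, it
is close to the convexity bound on the vertical sides, because of the mean value inequality and the
known values on the other side of the edges, and so it is close to the convexity bound in the middle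
of the rectangle, if this is long enough.
-/

set_option autoImplicit false

open NumberField IsDedekindDomain

namespace Pool.Agent.Results.MP_fb225e_nt.SubconvexityAndZeros

section field
variable {K : Type} [Field K] [NumberField K]

/-- the number of affine points of `y² = x³ + a x + b` over the residue field of `v` -/
noncomputable def points (a b : 𝓞 K) (v : HeightOneSpectrum (𝓞 K)) : ℕ :=
  Nat.card {P : (𝓞 K ⧸ v.asIdeal) × (𝓞 K ⧸ v.asIdeal) //
    P.2 ^ 2 = P.1 ^ 3 + Ideal.Quotient.mk v.asIdeal a * P.1 + Ideal.Quotient.mk v.asIdeal b}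

/-- the Euler factor `(1 - c q^(-s) + e q^(-2 s))⁻¹` -/
noncomputable def eulerFactor (c e : ℤ) (q : ℕ) (s : ℂ) : ℂ :=
  (1 - (c : ℂ) * (q : ℂ) ^ (-s) + (e : ℂ) * (q : ℂ) ^ (-(2 * s)))⁻¹

/-- the possible Euler factors of an elliptic curve at a place with `q` residue classes:
good reduction (`e = q`, `c² ≤ 4 q`) or bad reduction (`e = 0`, `c = 0, 1, -1`) -/
def Possible (c e : ℤ) (q : ℕ) : Prop := (e = q ∧ c ^ 2 ≤ 4 * (q : ℤ)) ∨ (e = 0 ∧ c ^ 2 ≤ 1)

/-- `1 - c_v T + e_v T²` are the local polynomials of `y² = x³ + a x + b`: given by the number of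
points, `c_v = Nv - #(affine points)` and `e_v = Nv`, if `v` does not divide `2 (4 a³ + 27 b²)`, and
possible for an elliptic curve at the finitely many other places -/
structure IsLocal (a b : 𝓞 K) (c e : HeightOneSpectrum (𝓞 K) → ℤ) : Prop where
  good : ∀ v : HeightOneSpectrum (𝓞 K), 2 * (4 * a ^ 3 + 27 * b ^ 2) ∉ v.asIdeal →
    c v = (Ideal.absNorm v.asIdeal : ℤ) - points a b v ∧ e v = Ideal.absNorm v.asIdeal
  bad : ∀ v : HeightOneSpectrum (𝓞 K), 2 * (4 * a ^ 3 + 27 * b ^ 2) ∈ v.asIdeal →
    Possible (c v) (e v) (Ideal.absNorm v.asIdeal)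

end field

/-- the completed function `A^(s/2) ((2π)^(-s) Γ(s))^n L(s)` -/
noncomputable def completed (n : ℕ) (A : ℝ) (L : ℂ → ℂ) (s : ℂ) : ℂ :=
  (A : ℂ) ^ (s / 2) * ((2 * Real.pi : ℂ) ^ (-s) * Complex.Gamma s) ^ n * L s

/-- `L` is the L-function of the elliptic curve `y² = x³ + a x + b` over `K`: it is given by the
Euler product for `Re s > 3/2`, it is entire, and it has the functional equation with the conductor
`A` (stated in the critical strip `0 < Re s < 2` of the completed function).  The bound `growth` in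
the strip is very weak, in all known cases `L` is of finite order. -/
structure HasseWeil (K : Type) [Field K] [NumberField K] (a b : 𝓞 K) (A : ℝ) (L : ℂ → ℂ) :
    Prop where
  nonsingular : 4 * a ^ 3 + 27 * b ^ 2 ≠ 0
  euler : ∃ c e : HeightOneSpectrum (𝓞 K) → ℤ, IsLocal a b c e ∧ ∀ s : ℂ, 3 / 2 < s.re →
    HasProd (fun v : HeightOneSpectrum (𝓞 K) =>
      eulerFactor (c v) (e v) (Ideal.absNorm v.asIdeal) s) (L s)
  entire : Differentiable ℂ L
  growth : ∃ B : ℝ, ∀ s : ℂ, 0 < s.re → s.re < 2 → ‖L s‖ ≤ Real.exp (B * Real.exp |s.im|)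
  pos : 0 < A
  fe : ∃ w : ℂ, ‖w‖ = 1 ∧ ∀ s : ℂ, 0 < s.re → s.re < 2 →
    completed (Module.finrank ℚ K) A L s = w * completed (Module.finrank ℚ K) A L (2 - s)

open Classical in
/-- The sum of `g(ρ)` over the nontrivial zeros `ρ` of `L`, i.e. the zeros in the strip
`0 < Re ρ < 2`, with multiplicity. -/
noncomputable def zeroSum (L : ℂ → ℂ) (g : ℂ → ℝ) : ℝ :=
  ∑ᶠ ρ : ℂ, if 0 < ρ.re ∧ ρ.re < 2 then (analyticOrderNatAt L ρ : ℝ) * g ρ else 0

/-- The number of the nontrivial zeros in a set, with multiplicity. -/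
noncomputable def count (L : ℂ → ℂ) (S : Set ℂ) : ℝ := zeroSum L (S.indicator fun _ => 1)

theorem conv {K : Type} [Field K] [NumberField K] {a b : 𝓞 K} {A : ℝ} {L : ℂ → ℂ}
    (h : HasseWeil K a b A L) : Pool.Agent.H465.PT.HasseWeil K a b A L := by
  obtain ⟨c, e, hl, he⟩ := h.euler
  exact ⟨h.nonsingular, ⟨c, e, ⟨hl.good, hl.bad⟩, he⟩, h.entire, h.growth, h.pos, h.fe⟩

/-- **Main theorem.** For elliptic curves `E_i : y² = x³ + a_i x + b_i` over number fields `K_i`
(`i` runs over a set with a filter, e.g. a sequence) with conductors `A_i` such that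
`log A_i / [K_i : ℚ] → ∞`, subconvexity (1), subconvexity in a short interval (2), and a positive
proportion of zeros away from the edges of the critical strip (3), (4) are equivalent. -/
theorem result {ι : Type} (l : Filter ι) (K : ι → Type) [∀ i, Field (K i)]
      [∀ i, NumberField (K i)] (a b : ∀ i, 𝓞 (K i)) (A : ι → ℝ) (L : ι → ℂ → ℂ) :
      (∀ i, HasseWeil (K i) (a i) (b i) (A i) (L i)) →
      Filter.Tendsto (fun i => Real.log (A i) / Module.finrank ℚ (K i)) l Filter.atTop →
      List.TFAE [
        -- (1) subconvexity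
        ∀ T : ℝ, ∃ c : ℝ, 0 < c ∧ ∀ᶠ i in l, ∀ t : ℝ, |t| ≤ T →
          ‖L i (1 + t * Complex.I)‖ ≤ A i ^ (1 / 4 - c),
        -- (2) subconvexity in a short interval
        ∃ T r c : ℝ, 0 < r ∧ 0 < c ∧ ∀ᶠ i in l, ∃ t₀ : ℝ, |t₀| ≤ T ∧
          ∀ t : ℝ, |t - t₀| ≤ r → ‖L i (1 + t * Complex.I)‖ ≤ A i ^ (1 / 4 - c),
        -- (3) zeros away from the edges
        ∃ T δ c : ℝ, 0 < δ ∧ 0 < c ∧ ∀ᶠ i in l,
          c * Real.log (A i) ≤ count (L i) {ρ : ℂ | |ρ.im| ≤ T ∧ |ρ.re - 1| ≤ 1 / 2 - δ},
        -- (4) zeros away from the edges, at all heights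
        ∀ T : ℝ, ∃ H δ c : ℝ, 0 < δ ∧ 0 < c ∧ ∀ᶠ i in l, ∀ t : ℝ, |t| ≤ T →
          c * Real.log (A i) ≤
            count (L i) {ρ : ℂ | |ρ.im - t| ≤ H ∧ |ρ.re - 1| ≤ 1 / 2 - δ}] := by
  intro hL hA
  have key := Pool.Agent.H465.PT.hw_sub (fun i => conv (hL i)) hA
  have hexp : ∀ i, ∀ c : ℝ, Real.exp (Real.log (A i) * (1 / 4 - c)) = A i ^ (1 / 4 - c) := by
    intro i ε
    rw [Real.rpow_def_of_pos (hL i).pos]
  have hp : ∀ t : ℝ, Pool.Agent.H465.NF.p1 t = 1 + t * Complex.I := by
    intro t
    apply Complex.ext <;> simp [Pool.Agent.H465.NF.p1]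
  simp only [hexp, hp, sub_zero] at key
  exact key

end Pool.Agent.Results.MP_fb225e_nt.SubconvexityAndZeros
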